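import Pool.Agent.PowFact.Few

/-!
Binomial coefficients `n choose k`, `k` fixed, that are products of consecutive primes: the primes
must be tiny.
-/

set_option autoImplicit false

open Nat Finset Filter

namespace Pool.Agent.BinomBlock

open Pool.Agent.PowFact

/-- the primes in `[y, z]` -/
def Bl (y z : ℕ) : Finset ℕ := (Finset.Icc y z).filter Nat.Prime

lemma mem_Bl {y z p : ℕ} : p ∈ Bl y z ↔ (y ≤ p ∧ p ≤ z) ∧ p.Prime := by
  rw [Bl, Finset.mem_filter, Finset.mem_Icc]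

/-- the primes of the block dividing `n - i` -/
def Bi (y z n i : ℕ) : Finset ℕ := (Bl y z).filter (fun p => p ∣ n - i)

/-- their product -/
def A (y z n i : ℕ) : ℕ := ∏ p ∈ Bi y z n i, p

lemma A_dvd (y z n i : ℕ) : A y z n i ∣ n - i := by
  apply Finset.prod_primes_dvd
  · intro p hp
    rw [Bi, Finset.mem_filter, mem_Bl] at hp
    exact hp.1.2.prime
  · intro p hp
    rw [Bi, Finset.mem_filter] at hp
    exact hp.2

lemma A_pos (y z n i : ℕ) : 0 < A y z n i := by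
  apply Finset.prod_pos
  intro p hp
  rw [Bi, Finset.mem_filter, mem_Bl] at hp
  exact hp.1.2.pos

lemma pow_le_A (y z n i : ℕ) : y ^ (Bi y z n i).card ≤ A y z n i := by
  apply Finset.pow_card_le_prod
  intro p hp
  rw [Bi, Finset.mem_filter, mem_Bl] at hp
  exact hp.1.1.1

lemma A_le_pow (y z n i : ℕ) : A y z n i ≤ z ^ (Bi y z n i).card := by
  apply Finset.prod_le_pow_card
  intro p hp
  rw [Bi, Finset.mem_filter, mem_Bl] at hp
  exact hp.1.1.2

lemma prod_A {y z n k : ℕ} (hky : k < y) (hkn : k < n)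
    (h : Nat.choose n k = ∏ p ∈ Bl y z, p) :
    ∏ i ∈ Finset.range k, A y z n i = ∏ p ∈ Bl y z, p := by
  have h1 : ∏ i ∈ Finset.range k, A y z n i =
      ∏ i ∈ Finset.range k, ∏ p ∈ Bl y z, if p ∣ n - i then p else 1 := by
    refine Finset.prod_congr rfl fun i _ => ?_
    rw [A, Bi, Finset.prod_filter]
  rw [h1, Finset.prod_comm]
  refine Finset.prod_congr rfl fun p hp => ?_
  have hp' := mem_Bl.1 hp
  have hpp := hp'.2
  have h2 : p ∣ ∏ i ∈ Finset.range k, (n - i) := by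
    rw [← Nat.descFactorial_eq_prod_range, Nat.descFactorial_eq_factorial_mul_choose, h]
    exact dvd_mul_of_dvd_right (Finset.dvd_prod_of_mem _ hp) _
  obtain ⟨j, hj, hpj⟩ := (Prime.dvd_finsetProd_iff hpp.prime _).1 h2
  rw [Finset.prod_eq_single j]
  · rw [if_pos hpj]
  · intro i hi hij
    rw [if_neg]
    intro hpi
    rw [Finset.mem_range] at hi hj
    rcases Nat.lt_or_gt_of_ne hij with h3 | h3
    · have h4 : p ∣ (n - i) - (n - j) := Nat.dvd_sub hpi hpj
      have h5 := Nat.le_of_dvd (by omega) h4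
      omega
    · have h4 : p ∣ (n - j) - (n - i) := Nat.dvd_sub hpj hpi
      have h5 := Nat.le_of_dvd (by omega) h4
      omega
  · intro hj'
    exact absurd hj hj'

/-- the cofactor -/
def dd (y z n i : ℕ) : ℕ := (n - i) / A y z n i

lemma dd_mul (y z n i : ℕ) : dd y z n i * A y z n i = n - i :=
  Nat.div_mul_cancel (A_dvd y z n i)

lemma prod_dd {y z n k : ℕ} (hky : k < y) (hkn : k < n)
    (h : Nat.choose n k = ∏ p ∈ Bl y z, p) :
    ∏ i ∈ Finset.range k, dd y z n i = k ! := by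
  have h1 : (∏ i ∈ Finset.range k, dd y z n i) * ∏ i ∈ Finset.range k, A y z n i =
      k ! * ∏ p ∈ Bl y z, p := by
    rw [← Finset.prod_mul_distrib]
    calc ∏ i ∈ Finset.range k, dd y z n i * A y z n i = ∏ i ∈ Finset.range k, (n - i) :=
          Finset.prod_congr rfl fun i _ => dd_mul y z n i
      _ = k ! * ∏ p ∈ Bl y z, p := by
          rw [← Nat.descFactorial_eq_prod_range, Nat.descFactorial_eq_factorial_mul_choose, h]
  rw [prod_A hky hkn h] at h1
  apply Nat.eq_of_mul_eq_mul_right _ h1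
  apply Finset.prod_pos
  intro p hp
  exact (mem_Bl.1 hp).2.pos

lemma dd_pos {y z n k i : ℕ} (hkn : k < n) (hi : i < k) : 0 < dd y z n i := by
  apply Nat.div_pos (Nat.le_of_dvd (by omega) (A_dvd y z n i)) (A_pos y z n i)

lemma dd_le {y z n k i : ℕ} (hky : k < y) (hkn : k < n)
    (h : Nat.choose n k = ∏ p ∈ Bl y z, p) (hi : i < k) : dd y z n i ≤ k ! := by
  apply Nat.le_of_dvd (Nat.factorial_pos k)
  rw [← prod_dd hky hkn h]
  exact Finset.dvd_prod_of_mem _ (Finset.mem_range.2 hi)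

/-- comparison of two factors -/
lemma compare {k Y N₁ N₂ a₁ a₂ d₁ d₂ κ₁ κ₂ : ℕ} {δ : ℝ} (hk : 1 ≤ k) (hY : 2 * k ! + 2 * k ≤ Y)
    (hδ0 : 0 ≤ δ) (hδ : 2 * (k ! : ℝ) * δ ≤ 1) (hN₁ : d₁ * a₁ = N₁) (hN₂ : d₂ * a₂ = N₂)
    (hN12 : N₂ < N₁ + k) (hN21 : N₁ < N₂ + k) (hd₁ : 1 ≤ d₁) (hd₂ : 1 ≤ d₂) (hdk₁ : d₁ ≤ k !)
    (hdk₂ : d₂ ≤ k !) (h₁ : Y ^ κ₁ ≤ a₁) (h₂ : Y ^ κ₂ ≤ a₂) (h₁' : (a₁ : ℝ) ≤ (1 + δ) * Y ^ κ₁)
    (h₂' : (a₂ : ℝ) ≤ (1 + δ) * Y ^ κ₂) (hbig : k ! < N₁) : κ₁ = κ₂ ∧ d₁ = d₂ := by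
  have hf : (1 : ℝ) ≤ (k ! : ℝ) := by exact_mod_cast Nat.factorial_pos k
  have hδ1 : δ ≤ 1 := by nlinarith
  have hY' : 2 * (k ! : ℝ) + 2 * k ≤ Y := by exact_mod_cast hY
  have hk' : (1 : ℝ) ≤ k := by exact_mod_cast hk
  have hY1 : (1 : ℝ) ≤ Y := by linarith
  have hN12' : (N₂ : ℝ) < N₁ + k := by exact_mod_cast hN12
  have hN21' : (N₁ : ℝ) < N₂ + k := by exact_mod_cast hN21
  -- generic inequality: smaller exponent is impossible
  have key1 : ∀ {a b d e κ κ' : ℕ}, d ≤ k ! → 1 ≤ e → (a : ℝ) ≤ (1 + δ) * Y ^ κ → Y ^ κ' ≤ b →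
      κ < κ' → (d : ℝ) * a + k ≤ e * b := by
    intro a b d e κ κ' hd he ha hb hκ
    have h1 : (Y : ℝ) * Y ^ κ ≤ b := by
      have h3 : (Y : ℝ) ^ κ' ≤ b := by exact_mod_cast hb
      refine le_trans ?_ h3
      rw [← _root_.pow_succ']
      exact pow_le_pow_right₀ hY1 hκ
    have h2 : (1 : ℝ) ≤ (Y : ℝ) ^ κ := one_le_pow₀ hY1
    have hd' : (d : ℝ) ≤ k ! := by exact_mod_cast hd
    have he' : (1 : ℝ) ≤ e := by exact_mod_cast he
    have h4 : (d : ℝ) * a ≤ 2 * (k ! : ℝ) * Y ^ κ := by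
      calc (d : ℝ) * a ≤ (k ! : ℝ) * ((1 + δ) * Y ^ κ) :=
            mul_le_mul hd' ha (by positivity) (by positivity)
        _ ≤ (k ! : ℝ) * (2 * Y ^ κ) := by
            apply mul_le_mul_of_nonneg_left _ (by positivity)
            apply mul_le_mul_of_nonneg_right _ (by positivity)
            linarith
        _ = _ := by ring
    have h5 : (b : ℝ) ≤ e * b := by nlinarith [show (0:ℝ) ≤ b by positivity]
    have h6 : (k : ℝ) ≤ k * (Y : ℝ) ^ κ := by nlinarith
    nlinarith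
  have hκ : κ₁ = κ₂ := by
    rcases lt_trichotomy κ₁ κ₂ with h | h | h
    · exfalso
      have h3 := key1 hdk₁ hd₂ h₁' h₂ h
      have e1 : (d₁ : ℝ) * a₁ = N₁ := by exact_mod_cast hN₁
      have e2 : (d₂ : ℝ) * a₂ = N₂ := by exact_mod_cast hN₂
      linarith
    · exact h
    · exfalso
      have h3 := key1 hdk₂ hd₁ h₂' h₁ h
      have e1 : (d₁ : ℝ) * a₁ = N₁ := by exact_mod_cast hN₁
      have e2 : (d₂ : ℝ) * a₂ = N₂ := by exact_mod_cast hN₂
      linarith
  refine ⟨hκ, ?_⟩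
  subst hκ
  have hκ1 : 1 ≤ κ₁ := by
    by_contra hc
    have h0 : κ₁ = 0 := by omega
    rw [h0, pow_zero, mul_one] at h₁'
    have h3 : (a₁ : ℝ) < 2 ∨ (a₁ : ℝ) = 2 := by
      rcases lt_or_eq_of_le (h₁'.trans (by linarith : 1 + δ ≤ 2)) with h | h
      · exact Or.inl h
      · exact Or.inr h
    have h4 : 2 * (k ! : ℝ) * δ ≤ 1 := hδ
    have h5 : δ ≤ 1 / 2 := by nlinarith
    have h6 : (a₁ : ℝ) < 2 := by linarith
    have h7 : a₁ < 2 := by exact_mod_cast h6
    have h8 : d₁ * a₁ ≤ k ! * 1 := Nat.mul_le_mul hdk₁ (by omega)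
    omega
  have hYκ : (Y : ℝ) ≤ (Y : ℝ) ^ κ₁ := by
    calc (Y : ℝ) = (Y : ℝ) ^ 1 := (pow_one _).symm
      _ ≤ _ := pow_le_pow_right₀ hY1 hκ1
  have key2 : ∀ {a b d e : ℕ}, d ≤ k ! → d < e → (a : ℝ) ≤ (1 + δ) * Y ^ κ₁ → Y ^ κ₁ ≤ b →
      (d : ℝ) * a + k ≤ e * b := by
    intro a b d e hd hde ha hb
    have hd' : (d : ℝ) ≤ k ! := by exact_mod_cast hd
    have hde' : (d : ℝ) + 1 ≤ e := by exact_mod_cast hde
    have hb' : (Y : ℝ) ^ κ₁ ≤ b := by exact_mod_cast hb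
    have hP : 0 ≤ (Y : ℝ) ^ κ₁ := by positivity
    have h1 : (d : ℝ) * a ≤ d * ((1 + δ) * Y ^ κ₁) :=
      mul_le_mul_of_nonneg_left ha (by positivity)
    have h2 : ((d : ℝ) + 1) * Y ^ κ₁ ≤ e * b := mul_le_mul hde' hb' hP (by positivity)
    have h3 : (d : ℝ) * δ ≤ 1 / 2 := by
      have : (d : ℝ) * δ ≤ k ! * δ := mul_le_mul_of_nonneg_right hd' hδ0
      linarith
    have h4 : (d : ℝ) * δ * Y ^ κ₁ ≤ 1 / 2 * Y ^ κ₁ := mul_le_mul_of_nonneg_right h3 hP
    have h5 : (k : ℝ) ≤ 1 / 2 * Y ^ κ₁ := by linarith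
    calc (d : ℝ) * a + k ≤ d * ((1 + δ) * Y ^ κ₁) + 1 / 2 * Y ^ κ₁ := by linarith
      _ = d * Y ^ κ₁ + d * δ * Y ^ κ₁ + 1 / 2 * Y ^ κ₁ := by ring
      _ ≤ ((d : ℝ) + 1) * Y ^ κ₁ := by linarith
      _ ≤ e * b := h2
  rcases lt_trichotomy d₁ d₂ with h | h | h
  · exfalso
    have h3 := key2 hdk₁ h h₁' h₂
    have e1 : (d₁ : ℝ) * a₁ = N₁ := by exact_mod_cast hN₁
    have e2 : (d₂ : ℝ) * a₂ = N₂ := by exact_mod_cast hN₂
    linarith
  · exact h
  · exfalso
    have h3 := key2 hdk₂ h h₂' h₁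
    have e1 : (d₁ : ℝ) * a₁ = N₁ := by exact_mod_cast hN₁
    have e2 : (d₂ : ℝ) * a₂ = N₂ := by exact_mod_cast hN₂
    linarith

/-- a block of primes that is too narrow cannot have product `n choose k` -/
lemma narrow {k y z n : ℕ} {δ : ℝ} (hk : 2 ≤ k) (hy : 2 * k ! + 2 * k ≤ y) (hn : k ! + k < n)
    (hδ0 : 0 ≤ δ) (hδ : 2 * (k ! : ℝ) * δ ≤ 1)
    (hz : ∀ κ ≤ (Bl y z).card, (z : ℝ) ^ κ ≤ (1 + δ) * (y : ℝ) ^ κ)
    (h : Nat.choose n k = ∏ p ∈ Bl y z, p) : False := by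
  have hf := Nat.factorial_pos k
  have hky : k < y := by omega
  have hkn : k < n := by omega
  have hcard : ∀ i, (Bi y z n i).card ≤ (Bl y z).card := fun i =>
    Finset.card_le_card (Finset.filter_subset _ _)
  have hA : ∀ i, (A y z n i : ℝ) ≤ (1 + δ) * (y : ℝ) ^ (Bi y z n i).card := by
    intro i
    refine le_trans ?_ (hz _ (hcard i))
    exact_mod_cast A_le_pow y z n i
  have hcmp : ∀ i < k, dd y z n 0 = dd y z n i := by
    intro i hi
    exact (compare (N₁ := n - 0) (N₂ := n - i) (k := k) (by omega) hy hδ0 hδ (dd_mul y z n 0)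
      (dd_mul y z n i) (by omega) (by omega) (dd_pos hkn (by omega)) (dd_pos hkn hi)
      (dd_le hky hkn h (by omega)) (dd_le hky hkn h hi) (pow_le_A y z n 0) (pow_le_A y z n i)
      (hA 0) (hA i) (by omega)).2
  have h0 : dd y z n 0 ∣ n := ⟨_, by rw [dd_mul]; rfl⟩
  have h1 : dd y z n 0 ∣ n - 1 := by
    rw [hcmp 1 (by omega)]
    exact ⟨_, (dd_mul y z n 1).symm⟩
  have h2 : dd y z n 0 ∣ n - (n - 1) := Nat.dvd_sub h0 h1
  rw [show n - (n - 1) = 1 by omega, Nat.dvd_one] at h2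
  have h3 := prod_dd hky hkn h
  have h4 : ∏ i ∈ Finset.range k, dd y z n i = 1 := by
    apply Finset.prod_eq_one
    intro i hi
    rw [← hcmp i (Finset.mem_range.1 hi), h2]
  rw [h4] at h3
  have h5 : k ≤ k ! := Nat.self_le_factorial k
  omega

/-- the block is narrow if its product is small compared with its primes -/
lemma core (k M : ℕ) (hk : 2 ≤ k) : ∃ z₀ : ℕ, ∀ y z n : ℕ, z₀ ≤ z → k ! + k < n →
    Real.log n ≤ Real.log z ^ M → Nat.choose n k = ∏ p ∈ Bl y z, p → False := by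
  obtain ⟨C, hC, hpnt⟩ := th_pnt (M + 3)
  obtain ⟨z₀, hz₀⟩ := ev_cond (max (max 4 (C * 2 ^ (M + 5))) (16 * (k * k ! : ℝ) + 4 * (k ! + k)))
    (2 * M + 3)
  refine ⟨z₀, fun y z n hz hn hlog h => ?_⟩
  obtain ⟨hK, hpow⟩ := hz₀ z hz
  set ell : ℝ := Real.log z with hell
  have hell4 : 4 ≤ ell := (le_max_left _ _).trans ((le_max_left _ _).trans hK)
  have hellC : C * 2 ^ (M + 5) ≤ ell := (le_max_right _ _).trans ((le_max_left _ _).trans hK)
  have hellk : 16 * (k * k ! : ℝ) + 4 * (k ! + k) ≤ ell := (le_max_right _ _).trans hK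
  have hell0 : 0 < ell := by linarith
  have hz0 : (0 : ℝ) < z := by
    by_contra hc
    push Not at hc
    have h1 : (z : ℝ) = 0 := le_antisymm hc (Nat.cast_nonneg z)
    rw [hell, h1, Real.log_zero] at hell4
    linarith
  have hzell : ell < z := by
    have := Real.log_lt_sub_one_of_pos hz0 (by
      intro h
      rw [hell, h, Real.log_one] at hell4
      linarith)
    linarith
  have hkR : (2 : ℝ) ≤ k := by exact_mod_cast hk
  have hfR : (1 : ℝ) ≤ k ! := by exact_mod_cast Nat.factorial_pos k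
  have hkf : (1 : ℝ) ≤ k * k ! := by nlinarith
  set η : ℝ := 1 / ell ^ (M + 2) with hη
  have hη0 : 0 < η := by positivity
  have hη4 : η ≤ 1 / 4 := by
    rw [hη]
    apply one_div_le_one_div_of_le (by norm_num)
    calc (4 : ℝ) ≤ ell := hell4
      _ = ell ^ 1 := (pow_one _).symm
      _ ≤ ell ^ (M + 2) := pow_le_pow_right₀ (by linarith) (by omega)
  have hn1 : (1 : ℝ) ≤ n := by
    have : 1 ≤ n := by omega
    exact_mod_cast this
  have hlogn : 0 ≤ Real.log n := Real.log_nonneg hn1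
  -- the total mass of the block
  have hmass : ∑ p ∈ Bl y z, Real.log (p : ℝ) ≤ k * ell ^ M := by
    have h1 : ∑ p ∈ Bl y z, Real.log (p : ℝ) = Real.log ((Nat.choose n k : ℕ) : ℝ) := by
      rw [h, Nat.cast_prod, Real.log_prod]
      intro p hp
      have := (mem_Bl.1 hp).2.pos
      exact_mod_cast this.ne'
    rw [h1]
    have h2 : ((Nat.choose n k : ℕ) : ℝ) ≤ (n : ℝ) ^ k := by
      exact_mod_cast Nat.choose_le_pow n k
    have h3 : (0 : ℝ) < ((Nat.choose n k : ℕ) : ℝ) := by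
      exact_mod_cast Nat.choose_pos (by omega : k ≤ n)
    calc Real.log ((Nat.choose n k : ℕ) : ℝ) ≤ Real.log ((n : ℝ) ^ k) := Real.log_le_log h3 h2
      _ = k * Real.log n := Real.log_pow _ _
      _ ≤ k * ell ^ M := mul_le_mul_of_nonneg_left hlog (by positivity)
  -- `y` is close to `z`
  set x : ℝ := z * (1 - η) with hx
  have hxz : x ≤ z := by rw [hx]; nlinarith
  have hx2 : (z : ℝ) / 2 ≤ x := by rw [hx]; nlinarith
  have hx0 : 0 ≤ x := by linarith
  have hyx : x < y := by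
    by_contra hc
    push Not at hc
    have h1 : th z - th x ≤ ∑ p ∈ Bl y z, Real.log (p : ℝ) := by
      rw [th_diff hx0 hxz, Nat.floor_natCast]
      apply Finset.sum_le_sum_of_subset_of_nonneg
      · intro p hp
        rw [Finset.mem_filter, Finset.mem_Icc] at hp
        rw [mem_Bl]
        refine ⟨⟨?_, hp.1.2⟩, hp.2.1⟩
        have : (y : ℝ) < p := lt_of_le_of_lt hc hp.2.2
        have h2 : y < p := by exact_mod_cast this
        omega
      · intro p hp _
        exact Real.log_nonneg (by exact_mod_cast (mem_Bl.1 hp).2.one_lt.le)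
    have hlx : ell / 2 ≤ Real.log x := by
      have h2 : Real.log ((z : ℝ) / 2) ≤ Real.log x := Real.log_le_log (by linarith) hx2
      rw [Real.log_div hz0.ne' (by norm_num)] at h2
      have h3 : Real.log 2 ≤ 1 := by have := Real.log_two_lt_d9; linarith
      linarith
    have hz6 : (6 : ℝ) ≤ z := by
      have h1 : (16 : ℝ) ≤ ell := by nlinarith
      linarith
    have herr : ∀ t : ℝ, (z : ℝ) / 2 ≤ t → t ≤ z → ell / 2 ≤ Real.log t →
        C * t / Real.log t ^ (M + 3) ≤ C * 2 ^ (M + 3) * (z / ell ^ (M + 3)) := by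
      intro t ht1 ht2 ht3
      have h3 : (ell / 2) ^ (M + 3) ≤ Real.log t ^ (M + 3) :=
        pow_le_pow_left₀ (by linarith) ht3 _
      calc C * t / Real.log t ^ (M + 3) ≤ C * z / (ell / 2) ^ (M + 3) := by
            apply div_le_div₀ (by positivity) _ (by positivity) h3
            exact mul_le_mul_of_nonneg_left ht2 hC.le
        _ = C * 2 ^ (M + 3) * (z / ell ^ (M + 3)) := by
            rw [div_pow]; field_simp
    have e1 := herr x hx2 hxz hlx
    have e2 := herr z (by linarith) le_rfl (by rw [← hell]; linarith)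
    have h3 := (abs_le.1 (hpnt z (by linarith))).1
    have h4 := (abs_le.1 (hpnt x (by linarith))).2
    have h5 : (z : ℝ) - x = z / ell ^ (M + 2) := by rw [hx, hη]; field_simp; ring
    have h6 : C * 2 ^ (M + 3) * ((z : ℝ) / ell ^ (M + 3)) ≤ z / ell ^ (M + 2) / 4 := by
      have h7 : C * 2 ^ (M + 3) * ((z : ℝ) / ell ^ (M + 3)) =
          (C * 2 ^ (M + 5) / ell) * (z / ell ^ (M + 2) / 4) := by
        rw [show M + 5 = (M + 3) + 2 by ring, show M + 3 = (M + 2) + 1 by ring,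
          pow_succ ell (M + 2), pow_add (2 : ℝ) (M + 2 + 1) 2]
        field_simp
        norm_num
      rw [h7]
      have h8 : C * 2 ^ (M + 5) / ell ≤ 1 := by rw [div_le_one hell0]; exact hellC
      have h9 : 0 ≤ (z : ℝ) / ell ^ (M + 2) / 4 := by positivity
      nlinarith
    have h7 : (z : ℝ) / ell ^ (M + 2) / 2 ≤ k * ell ^ M := by linarith
    have h8 : (z : ℝ) ≤ 2 * k * ell ^ (2 * M + 2) := by
      rw [div_div, div_le_iff₀ (by positivity)] at h7
      calc (z : ℝ) ≤ k * ell ^ M * (ell ^ (M + 2) * 2) := h7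
        _ = 2 * k * ell ^ (2 * M + 2) := by
          rw [show 2 * M + 2 = M + (M + 2) by ring, pow_add]; ring
    have h9 : (2 * k : ℝ) * ell ^ (2 * M + 2) < ell * ell ^ (2 * M + 2) := by
      apply mul_lt_mul_of_pos_right _ (by positivity)
      nlinarith
    have h10 : ell * ell ^ (2 * M + 2) = ell ^ (2 * M + 3) := by
      rw [← _root_.pow_succ']
    linarith
  have hy2 : (z : ℝ) / 2 ≤ y := by linarith
  have hyk : 2 * k ! + 2 * k ≤ y := by
    have h1 : (2 * (k ! : ℝ) + 2 * k) ≤ y := by nlinarith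
    exact_mod_cast h1
  have hy0 : (0 : ℝ) < y := by linarith
  -- the number of primes
  have hlogy : 1 ≤ Real.log y := by
    have h2 : Real.log ((z : ℝ) / 2) ≤ Real.log y := Real.log_le_log (by linarith) hy2
    rw [Real.log_div hz0.ne' (by norm_num)] at h2
    have h3 : Real.log 2 ≤ 1 := by have := Real.log_two_lt_d9; linarith
    linarith
  have hr : ((Bl y z).card : ℝ) ≤ k * ell ^ M := by
    refine le_trans ?_ hmass
    have h1 : ∑ p ∈ Bl y z, (1 : ℝ) ≤ ∑ p ∈ Bl y z, Real.log (p : ℝ) := by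
      apply Finset.sum_le_sum
      intro p hp
      refine hlogy.trans (Real.log_le_log hy0 ?_)
      exact_mod_cast (mem_Bl.1 hp).1.1
    simpa using h1
  have hzy : (z : ℝ) ≤ (1 + 2 * η) * y := by
    have h1 : (1 : ℝ) ≤ (1 + 2 * η) * (1 - η) := by nlinarith
    have h2 : (1 + 2 * η) * x ≤ (1 + 2 * η) * y :=
      mul_le_mul_of_nonneg_left hyx.le (by positivity)
    have h3 : (1 + 2 * η) * x = z * ((1 + 2 * η) * (1 - η)) := by rw [hx]; ring
    rw [h3] at h2
    nlinarith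
  have hηr : 2 * η * (k * ell ^ M) ≤ 1 / (4 * k !) := by
    have h1 : 2 * η * (k * ell ^ M) = 2 * k / ell ^ 2 := by
      rw [hη, pow_add]; field_simp
    rw [h1, div_le_div_iff₀ (by positivity) (by positivity)]
    have h2 : 16 * (k * k ! : ℝ) ≤ ell := by nlinarith
    nlinarith
  refine narrow (δ := 1 / (2 * k !)) hk hyk hn (by positivity) ?_ ?_ h
  · apply le_of_eq; field_simp
  · intro κ hκ
    have hκR : (κ : ℝ) ≤ k * ell ^ M := le_trans (by exact_mod_cast hκ) hr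
    have h1 : (z : ℝ) ^ κ ≤ ((1 + 2 * η) * y) ^ κ := pow_le_pow_left₀ hz0.le hzy κ
    rw [mul_pow] at h1
    refine h1.trans (mul_le_mul_of_nonneg_right ?_ (by positivity))
    have h2 : (1 + 2 * η) ^ κ ≤ Real.exp (2 * η * κ) := by
      rw [mul_comm (2 * η) (κ : ℝ), Real.exp_nat_mul]
      apply pow_le_pow_left₀ (by positivity)
      linarith [Real.add_one_le_exp (2 * η)]
    have h3 : 2 * η * κ ≤ 1 / (4 * k !) :=
      (mul_le_mul_of_nonneg_left hκR (by positivity)).trans hηr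
    have h4 : 0 ≤ 2 * η * κ := by positivity
    have h5 : (1 : ℝ) / (4 * k !) ≤ 1 / 4 := by
      apply one_div_le_one_div_of_le (by norm_num)
      linarith
    have h6 : Real.exp (2 * η * κ) ≤ 1 + 2 * (2 * η * κ) := by
      have h7 := Real.abs_exp_sub_one_le (x := 2 * η * κ) (by rw [abs_of_nonneg h4]; linarith)
      rw [abs_of_nonneg h4] at h7
      linarith [(abs_le.1 h7).2]
    have h7 : 2 * (1 / (4 * (k ! : ℝ))) = 1 / (2 * k !) := by field_simp; norm_num
    linarith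

end Pool.Agent.BinomBlock
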